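import Mathlib
import Pool.Agent.Lib.MP_ff2328_ag.Main

/-!
# Smallest pure exponent at maximally singular points of the Hilbert scheme of points of 3-space

Let `K` be a field and let `l` be a natural number with
`(k+2).choose 3 ≤ l < (k+3).choose 3`. If a Borel-fixed monomial ideal `I` of `K[x,y,z]` of
colength `l` has the largest tangent space dimension among all ideals of colength `l`, then the
smallest pure exponent of `I` (the least `n` with `x^n ∈ I`) equals `k`.

The variables are `x = X 0`, `y = X 1`, `z = X 2`.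
-/

namespace Pool.Agent.Results.MP_ff2328_ag.SmallestPureExponent

open MvPolynomial

variable {K : Type*} [Field K]

/-- The ideal `I` of `K[x,y,z]` is generated by monomials. -/
def IsMonomialIdeal (I : Ideal (MvPolynomial (Fin 3) K)) : Prop :=
  ∃ S : Set (Fin 3 →₀ ℕ), I = Ideal.span ((fun u => monomial u (1 : K)) '' S)

/-- The monomial with exponent vector `u` is a minimal monomial generator of `I`: it lies in `I`
and no proper monomial divisor of it lies in `I`. -/
def IsMinGen (I : Ideal (MvPolynomial (Fin 3) K)) (u : Fin 3 →₀ ℕ) : Prop :=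
  monomial u (1 : K) ∈ I ∧ ∀ v, v ≤ u → monomial v (1 : K) ∈ I → v = u

/-- Borel-fixed monomial ideals: for every minimal monomial generator `g`,
if `z` divides `g` then `x g / z` and `y g / z` lie in `I`, and if `y` divides `g` then
`x g / y` lies in `I`. -/
def IsBorelFixed (I : Ideal (MvPolynomial (Fin 3) K)) : Prop :=
  IsMonomialIdeal I ∧ ∀ u, IsMinGen I u →
    (u 2 ≠ 0 → monomial (u - Finsupp.single 2 1 + Finsupp.single 0 1) (1 : K) ∈ I ∧
      monomial (u - Finsupp.single 2 1 + Finsupp.single 1 1) (1 : K) ∈ I) ∧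
    (u 1 ≠ 0 → monomial (u - Finsupp.single 1 1 + Finsupp.single 0 1) (1 : K) ∈ I)

/-- `I` is zero-dimensional of colength `l`. -/
def HasColength (I : Ideal (MvPolynomial (Fin 3) K)) (l : ℕ) : Prop :=
  Module.Finite K (MvPolynomial (Fin 3) K ⧸ I) ∧
    Module.finrank K (MvPolynomial (Fin 3) K ⧸ I) = l

/-- Dimension of the tangent space of the Hilbert scheme of points at `I`:
the dimension over `K` of the space of `K[x,y,z]`-linear maps from `I` to `K[x,y,z] / I`. -/
noncomputable def tangentDim (I : Ideal (MvPolynomial (Fin 3) K)) : ℕ :=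
  Module.finrank K (I →ₗ[MvPolynomial (Fin 3) K] (MvPolynomial (Fin 3) K ⧸ I))

/-- `I` is a point of maximal singularity of the Hilbert scheme of `l` points. -/
def HasMaximalSingularity (I : Ideal (MvPolynomial (Fin 3) K)) (l : ℕ) : Prop :=
  HasColength I l ∧
    ∀ J : Ideal (MvPolynomial (Fin 3) K), HasColength J l → tangentDim J ≤ tangentDim I

/-- The smallest pure exponent `m₁` of a Borel-fixed point of maximal singularity is `k`. -/
theorem result (K : Type*) [Field K] (k l : ℕ)
    (hl₁ : (k + 2).choose 3 ≤ l) (hl₂ : l < (k + 3).choose 3)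
    (I : Ideal (MvPolynomial (Fin 3) K)) (hB : IsBorelFixed I)
    (hmax : HasMaximalSingularity I l) :
    IsLeast {n : ℕ | (X 0 : MvPolynomial (Fin 3) K) ^ n ∈ I} k :=
  Pool.Agent.Lib.MP_ff2328_ag.main k l hl₁ hl₂ I hB.1
    (fun u h1 h2 => hB.2 u ⟨h1, h2⟩) hmax.1.1 hmax.1.2
    (fun J hJ1 hJ2 => hmax.2 J ⟨hJ1, hJ2⟩)

end Pool.Agent.Results.MP_ff2328_ag.SmallestPureExponent
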